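import Pool.Agent.H7.KSAT.Defs

/-!
# Rounding facts for the positions of lines
-/

set_option autoImplicit false

namespace Pool.KSAT

open Finset Real
open Pool.Agent.H49.Ent Pool.Agent.H32.Dense Pool.STK

theorem fl_apply {m : ℕ} (j : ℕ) (x : Fin m → ℝ) (i : Fin m) :
    fl j x i = ⌊2 ^ j * x i⌋ := rfl

theorem Fl_apply {Ω : Type} {m : ℕ} (x : Ω → Fin m → ℝ) (j : ℕ) (l : Ω) (i : Fin m) :
    Fl x j l i = ⌊2 ^ j * x l i⌋ := rfl

theorem XX_apply {Ω : Type} {m : ℕ} (u d : Ω → Fin m → ℝ) (K r : ℕ) (j : Fin (2 ^ K)) (l : Ω)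
    (i : Fin m) : XX u d K r j l i = ⌊2 ^ r * (u l i + tm K j * d l i)⌋ := rfl

theorem floor_err (x : ℝ) : (⌊x⌋ : ℝ) ≤ x ∧ x < ⌊x⌋ + 1 :=
  ⟨Int.floor_le x, Int.lt_floor_add_one x⟩

theorem geo1 {m K : ℕ} {Ω : Type} (u d : Ω → Fin m → ℝ) (a : ℕ) (ha : a ≤ K)
    (j : Fin (2 ^ K)) (l : Ω) (i : Fin m) :
    XX u d K (K - a) j l i = XX u d K K j l i / 2 ^ a := by
  rw [XX_apply, XX_apply]
  have h1 : (2 : ℝ) ^ (K - a) * (u l i + tm K j * d l i) =
      (2 ^ K * (u l i + tm K j * d l i)) / ((2 ^ a : ℕ) : ℝ) := by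
    have h2 : (2 : ℝ) ^ K = 2 ^ (K - a) * 2 ^ a := by
      rw [← pow_add]
      congr 1
      omega
    rw [h2]
    push_cast
    field_simp
  rw [h1, Int.floor_div_natCast]
  push_cast
  rfl

theorem geo2 {m K : ℕ} {Ω : Type} (u d : Ω → Fin m → ℝ) (s t : Fin (2 ^ K)) (l l' : Ω)
    (h : XX u d K K s l = XX u d K K s l') (i : Fin m) :
    |2 ^ K * ((XX u d K K t l' i : ℝ) - XX u d K K t l i) -
        (((t : ℕ) : ℝ) - ((s : ℕ) : ℝ)) * ((Fl d K l' i : ℝ) - Fl d K l i)| ≤ 4 * 2 ^ K := by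
  have hs : XX u d K K s l i = XX u d K K s l' i := by rw [h]
  rw [XX_apply, XX_apply] at hs
  rw [XX_apply, XX_apply, Fl_apply, Fl_apply]
  have hP : (0 : ℝ) < 2 ^ K := by positivity
  have a1 := floor_err (2 ^ K * (u l' i + tm K t * d l' i))
  have a2 := floor_err (2 ^ K * (u l i + tm K t * d l i))
  have a3 := floor_err (2 ^ K * (u l i + tm K s * d l i))
  have a4 := floor_err (2 ^ K * (u l' i + tm K s * d l' i))
  have a5 := floor_err (2 ^ K * d l' i)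
  have a6 := floor_err (2 ^ K * d l i)
  rw [← hs] at a4
  have ht : ∀ j : Fin (2 ^ K), 2 ^ K * tm K j = ((j : ℕ) : ℝ) := by
    intro j
    unfold tm
    field_simp
  have htb : ∀ j : Fin (2 ^ K), ((j : ℕ) : ℝ) ≤ 2 ^ K ∧ 0 ≤ ((j : ℕ) : ℝ) := by
    intro j
    refine ⟨?_, by positivity⟩
    have := j.2.le
    exact_mod_cast this
  set A : ℝ := (⌊2 ^ K * (u l' i + tm K t * d l' i)⌋ : ℝ)
  set B : ℝ := (⌊2 ^ K * (u l i + tm K t * d l i)⌋ : ℝ)
  set C : ℝ := (⌊2 ^ K * (u l i + tm K s * d l i)⌋ : ℝ)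
  set E : ℝ := (⌊2 ^ K * d l' i⌋ : ℝ)
  set G : ℝ := (⌊2 ^ K * d l i⌋ : ℝ)
  have e1 : 2 ^ K * (u l' i + tm K t * d l' i) = 2 ^ K * u l' i + (t : ℕ) * d l' i := by
    rw [← ht t]; ring
  have e2 : 2 ^ K * (u l i + tm K t * d l i) = 2 ^ K * u l i + (t : ℕ) * d l i := by
    rw [← ht t]; ring
  have e3 : 2 ^ K * (u l i + tm K s * d l i) = 2 ^ K * u l i + (s : ℕ) * d l i := by
    rw [← ht s]; ring
  have e4 : 2 ^ K * (u l' i + tm K s * d l' i) = 2 ^ K * u l' i + (s : ℕ) * d l' i := by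
    rw [← ht s]; ring
  rw [e1] at a1
  rw [e2] at a2
  rw [e3] at a3
  rw [e4] at a4
  -- errors
  set τ : ℝ := ((t : ℕ) : ℝ) - ((s : ℕ) : ℝ) with hτ
  have hτb : |τ| ≤ 2 ^ K := by
    rw [abs_le]
    constructor <;> linarith only [htb, (htb t).1, (htb t).2, (htb s).1, (htb s).2]
  have hX : |(A - B) - τ * (d l' i - d l i)| ≤ 2 := by
    rw [abs_le]
    constructor <;> rw [hτ] <;> nlinarith only [a1, a2, a3, a4, a1.1, a1.2, a2.1, a2.2, a3.1, a3.2, a4.1, a4.2]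
  have hD : |2 ^ K * (d l' i - d l i) - (E - G)| ≤ 1 := by
    rw [abs_le]
    constructor <;> nlinarith only [a5, a6, a5.1, a5.2, a6.1, a6.2]
  have key : 2 ^ K * (A - B) - τ * (E - G) =
      2 ^ K * ((A - B) - τ * (d l' i - d l i)) + τ * (2 ^ K * (d l' i - d l i) - (E - G)) := by
    ring
  rw [key]
  calc |2 ^ K * ((A - B) - τ * (d l' i - d l i)) + τ * (2 ^ K * (d l' i - d l i) - (E - G))| ≤
      |2 ^ K * ((A - B) - τ * (d l' i - d l i))| +
        |τ * (2 ^ K * (d l' i - d l i) - (E - G))| := abs_add_le _ _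
    _ ≤ 2 ^ K * 2 + 2 ^ K * 1 := by
        refine add_le_add ?_ ?_
        · rw [abs_mul, abs_of_pos hP]
          exact mul_le_mul_of_nonneg_left hX hP.le
        · rw [abs_mul]
          exact mul_le_mul hτb hD (abs_nonneg _) hP.le
    _ ≤ 4 * 2 ^ K := by linarith only [hP]

theorem geo4 {m K : ℕ} {Ω : Type} (d : Ω → Fin m → ℝ) (l : Ω) (i : Fin m) :
    |(Fl d K l i : ℝ) - 2 ^ K * d l i| ≤ 1 := by
  rw [Fl_apply]
  have a := floor_err (2 ^ K * d l i)
  rw [abs_le]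
  constructor <;> linarith only [a, a.1, a.2]

theorem geo3 {m K : ℕ} {Ω : Type} (d : Ω → Fin m → ℝ) (hd : ∀ l i, |d l i| ≤ 1) (l l' : Ω)
    (i : Fin m) : |(Fl d K l' i : ℝ) - Fl d K l i| ≤ 3 * 2 ^ K := by
  rw [Fl_apply, Fl_apply]
  have a := floor_err (2 ^ K * d l i)
  have b := floor_err (2 ^ K * d l' i)
  have hP : (1 : ℝ) ≤ 2 ^ K := one_le_pow₀ (by norm_num)
  have h1 := abs_le.mp (hd l i)
  have h2 := abs_le.mp (hd l' i)
  rw [abs_le]
  constructor <;> nlinarith only [a, b, hP, h1, h2, a.1, a.2, b.1, b.2, h1.1, h1.2, h2.1, h2.2]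

theorem geo5 {m K : ℕ} {Ω : Type} [Fintype Ω] (u d : Ω → Fin m → ℝ) (p : Ω → ℝ)
    (hp : IsLaw p) : Moves p (XX u d K K) (Fl d K) (cc m) := by
  intro s t
  have hP : (0 : ℝ) < 2 ^ K := by positivity
  have h := CH_le_vec hp.nonneg hp.sum_one (XX u d K K t)
    (fun l => (XX u d K K s l, Fl d K l)) (fun _ => 4) (by
      intro l l' _ _ hW i
      have hW1 : XX u d K K s l = XX u d K K s l' := (Prod.ext_iff.mp hW).1
      have hW2 : Fl d K l = Fl d K l' := (Prod.ext_iff.mp hW).2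
      have h := geo2 u d s t l' l hW1.symm i
      rw [hW2, sub_self, mul_zero, sub_zero, abs_mul, abs_of_pos hP] at h
      have h2 : |((XX u d K K t l i : ℝ) - XX u d K K t l' i)| ≤ 4 := by
        by_contra hcon
        push Not at hcon
        have := mul_lt_mul_of_pos_left hcon hP
        linarith only [h, this]
      push_cast
      exact h2)
  refine h.trans ?_
  have h3 : Ex p (fun _ => Real.log (2 * 4 + 1)) = Real.log 9 := by
    unfold Ex
    rw [← Finset.sum_mul, hp.sum_one]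
    norm_num
  rw [h3]
  unfold cc
  exact mul_le_mul_of_nonneg_left (Real.log_le_log (by norm_num) (by norm_num)) (by positivity)

/-- Rounding facts. -/
theorem geo_thm : GeoStmt := by
  intro m K Ω u d hd
  refine ⟨fun a ha j l i => geo1 u d a ha j l i, fun s t l l' h i => geo2 u d s t l l' h i,
    fun l l' i => geo3 d hd l l' i, fun l i => geo4 d l i, ?_⟩
  intro _ p hp
  exact geo5 u d p hp

end Pool.KSAT
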