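import Pool.Agent.H7.KSAT.Defs

/-!
# Families of independent differences seldom have small rank
-/

set_option autoImplicit false

namespace Pool.KSAT

open Finset Real
open Pool.Agent.H49.Ent Pool.Agent.H32.Dense Pool.STK

open Classical in
/-- Independent coordinates, each restricted by a condition depending on frozen coordinates. -/
theorem prod_bound {ι Ω : Type} [Fintype ι] [DecidableEq ι] [Fintype Ω] (p : Ω → ℝ)
    (hp : IsLaw p)
    (T : Finset ι) (Q : ι → (ι → Ω) → Ω → Prop)
    (hQ : ∀ x ∈ T, ∀ v v' : ι → Ω, (∀ y, y ∉ T → v y = v' y) → ∀ l, Q x v l → Q x v' l)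
    (ρ : ℝ) (hρ : ∀ x ∈ T, ∀ v : ι → Ω, (∑ l, if Q x v l then p l else 0) ≤ ρ) :
    (∑ v : ι → Ω, if ∀ x ∈ T, Q x v (v x) then ∏ i, p (v i) else 0) ≤ ρ ^ T.card := by
  have hne : Nonempty Ω := by
    by_contra h
    rw [not_nonempty_iff] at h
    have := hp.sum_one
    simp at this
  obtain ⟨ω₀⟩ := hne
  set e := Equiv.piEquivPiSubtypeProd (fun y : ι => y ∈ T) (fun _ => Ω) with he
  set base : ({y : ι // y ∉ T} → Ω) → ι → Ω := fun w => e.symm (fun _ => ω₀, w) with hbase
  have hsymm : ∀ (u : {y : ι // y ∈ T} → Ω) (w : {y : ι // y ∉ T} → Ω) (y : ι),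
      e.symm (u, w) y = if h : y ∈ T then u ⟨y, h⟩ else w ⟨y, h⟩ := by
    intro u w y
    rfl
  have h1 : ∀ (u : {y : ι // y ∈ T} → Ω) (w : {y : ι // y ∉ T} → Ω),
      (if ∀ x ∈ T, Q x (e.symm (u, w)) (e.symm (u, w) x) then ∏ i, p (e.symm (u, w) i) else 0) ≤
      (∏ x : {y : ι // y ∈ T}, if Q x.1 (base w) (u x) then p (u x) else 0) *
        ∏ y : {y : ι // y ∉ T}, p (w y) := by
    intro u w
    by_cases hall : ∀ x ∈ T, Q x (e.symm (u, w)) (e.symm (u, w) x)
    · rw [if_pos hall]
      have h2 : ∀ x : {y : ι // y ∈ T}, Q x.1 (base w) (u x) := by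
        intro x
        have h3 := hall x.1 x.2
        rw [hsymm u w x.1, dif_pos x.2] at h3
        refine hQ x.1 x.2 _ _ ?_ _ h3
        intro y hy
        rw [hbase]
        simp only
        rw [hsymm, hsymm, dif_neg hy, dif_neg hy]
      have h4 : (∏ x : {y : ι // y ∈ T}, if Q x.1 (base w) (u x) then p (u x) else 0) =
          ∏ x : {y : ι // y ∈ T}, p (e.symm (u, w) x.1) := by
        refine Finset.prod_congr rfl fun x _ => ?_
        rw [if_pos (h2 x), hsymm u w x.1, dif_pos x.2]
      have h5 : (∏ y : {y : ι // y ∉ T}, p (w y)) =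
          ∏ y : {y : ι // y ∉ T}, p (e.symm (u, w) y.1) := by
        refine Finset.prod_congr rfl fun y _ => ?_
        rw [hsymm u w y.1, dif_neg y.2]
      rw [h4, h5, ← Fintype.prod_subtype_mul_prod_subtype (fun y => y ∈ T)
        (fun i => p (e.symm (u, w) i))]
      refine le_of_eq (congrArg₂ (· * ·) (Finset.prod_congr ?_ fun _ _ => rfl)
        (Finset.prod_congr ?_ fun _ _ => rfl))
      · ext x
        simp
      · ext x
        simp
    · rw [if_neg hall]
      refine mul_nonneg (Finset.prod_nonneg fun x _ => ?_)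
        (Finset.prod_nonneg fun y _ => hp.nonneg _)
      split_ifs
      · exact hp.nonneg _
      · exact le_rfl
  rw [← Equiv.sum_comp e.symm, Fintype.sum_prod_type_right]
  have h6 : ∀ w : {y : ι // y ∉ T} → Ω,
      (∑ u : {y : ι // y ∈ T} → Ω, if ∀ x ∈ T, Q x (e.symm (u, w)) (e.symm (u, w) x) then
        ∏ i, p (e.symm (u, w) i) else 0) ≤ ρ ^ T.card * ∏ y : {y : ι // y ∉ T}, p (w y) := by
    intro w
    refine (Finset.sum_le_sum fun u _ => h1 u w).trans ?_
    rw [← Finset.sum_mul]
    refine mul_le_mul_of_nonneg_right ?_ (Finset.prod_nonneg fun y _ => hp.nonneg _)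
    have h7 := Finset.prod_univ_sum (fun _ : {y : ι // y ∈ T} => (Finset.univ : Finset Ω))
      (fun x l => if Q x.1 (base w) l then p l else 0)
    rw [Fintype.piFinset_univ] at h7
    rw [← h7]
    have h8 : (∏ x : {y : ι // y ∈ T}, ∑ l, if Q x.1 (base w) l then p l else 0) ≤
        ∏ _x : {y : ι // y ∈ T}, ρ := by
      refine Finset.prod_le_prod (fun x _ => Finset.sum_nonneg fun l _ => ?_)
        fun x _ => hρ x.1 x.2 _
      split_ifs
      · exact hp.nonneg _
      · exact le_rfl
    refine h8.trans (le_of_eq ?_)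
    rw [Finset.prod_const, Finset.card_univ, Fintype.card_coe]
  refine (Finset.sum_le_sum fun w _ => h6 w).trans ?_
  rw [← Finset.mul_sum]
  have h9 := Finset.prod_univ_sum (fun _ : {y : ι // y ∉ T} => (Finset.univ : Finset Ω))
    (fun _ l => p l)
  rw [Fintype.piFinset_univ] at h9
  rw [← h9]
  simp [hp.sum_one]

/-- The differences lie near the span of `k` of them. -/
theorem rk_span (hL : LinStmt) (hR : RkStmt) {n m k : ℕ} (r : ℝ) (hr : 0 < r) (hk : k ≤ n)
    (Δ : Fin n → Fin m → ℝ) (h : rk r Δ ≤ k) :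
    ∃ I : Fin k → Fin n, ∀ i : Fin n, ∃ c : Fin k → ℝ,
      ∀ j : Fin m, |Δ i j - ∑ l, c l * Δ (I l) j| ≤ r := by
  obtain ⟨h1, h2, I, κ, hmax⟩ := hR n m r Δ hr
  obtain ⟨_, _, _, _, _, h3⟩ := hL n m (rk r Δ) r Δ I κ hr hmax
  have hex : ∃ I' : Fin k → Fin n, ∀ l : Fin (rk r Δ), I' (Fin.castLE h l) = I l := by
    refine ⟨fun x => if hx : (x : ℕ) < rk r Δ then I ⟨x, hx⟩ else ⟨x, lt_of_lt_of_le x.2 hk⟩,
      fun l => ?_⟩
    have : ((Fin.castLE h l : Fin k) : ℕ) < rk r Δ := l.2
    simp only [this, dite_true]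
    rfl
  obtain ⟨I', hI'⟩ := hex
  refine ⟨I', fun i => ?_⟩
  obtain ⟨c, _, hc⟩ := h3 i
  refine ⟨fun x => if hx : (x : ℕ) < rk r Δ then c ⟨x, hx⟩ else 0, fun j => ?_⟩
  have hsum : (∑ l : Fin k, (if hx : (l : ℕ) < rk r Δ then c ⟨l, hx⟩ else 0) * Δ (I' l) j) =
      ∑ l : Fin (rk r Δ), c l * Δ (I l) j := by
    have e1 : (∑ l : Fin (rk r Δ), c l * Δ (I l) j) = ∑ l ∈ (Finset.univ : Finset (Fin
        (rk r Δ))).map (Fin.castLEEmb h), (if hx : (l : ℕ) < rk r Δ then c ⟨l, hx⟩ else 0) *
          Δ (I' l) j := by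
      rw [Finset.sum_map]
      refine Finset.sum_congr rfl fun l _ => ?_
      have e2 : ((Fin.castLEEmb h) l) = Fin.castLE h l := rfl
      rw [e2, hI' l]
      have : ((Fin.castLE h l : Fin k) : ℕ) < rk r Δ := l.2
      rw [dif_pos this]
      rfl
    rw [e1]
    symm
    refine Finset.sum_subset (Finset.subset_univ _) fun x _ hx => ?_
    have : ¬ (x : ℕ) < rk r Δ := by
      intro hlt
      refine hx ?_
      rw [Finset.mem_map]
      exact ⟨⟨x, hlt⟩, Finset.mem_univ _, by apply Fin.ext; rfl⟩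
    rw [dif_neg this, zero_mul]
  rw [hsum]
  exact hc j

/-- Families of independent differences seldom have small rank. -/
theorem qpr_thm (hL : LinStmt) (hR : RkStmt) : QprStmt := by
  classical
  intro m n k Ω _ p D r ρ hp hr hk hB
  have hρ0 : 0 ≤ ρ := by
    refine le_trans (Finset.sum_nonneg fun l _ => ?_) (hB 0 0)
    split_ifs
    · exact hp.nonneg _
    · exact le_rfl
  -- the event for a fixed choice of the spanning differences
  set A : (Fin k → Fin n) → (Fin n × Bool → Ω) → Prop := fun I v => ∀ i : Fin n,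
    ∃ c : Fin k → ℝ, ∀ j : Fin m, |(D (v (i, true)) j - D (v (i, false)) j) -
      ∑ l, c l * (D (v (I l, true)) j - D (v (I l, false)) j)| ≤ r with hA
  have hpv : ∀ v : Fin n × Bool → Ω, 0 ≤ ∏ i, p (v i) := fun v =>
    Finset.prod_nonneg fun i _ => hp.nonneg _
  have h1 : (∑ v : Fin n × Bool → Ω,
      if rk r (fun i j => D (v (i, true)) j - D (v (i, false)) j) ≤ k then ∏ i, p (v i) else 0) ≤
      ∑ I : Fin k → Fin n, ∑ v : Fin n × Bool → Ω, if A I v then ∏ i, p (v i) else 0 := by
    rw [Finset.sum_comm]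
    refine Finset.sum_le_sum fun v _ => ?_
    by_cases h : rk r (fun i j => D (v (i, true)) j - D (v (i, false)) j) ≤ k
    · rw [if_pos h]
      obtain ⟨I, hI⟩ := rk_span hL hR r hr hk _ h
      have hAI : A I v := hI
      refine le_trans ?_ (Finset.single_le_sum (f := fun I => if A I v then ∏ i, p (v i) else 0)
        (fun I _ => ?_) (Finset.mem_univ I))
      · rw [if_pos hAI]
      · split_ifs
        · exact hpv v
        · exact le_rfl
    · rw [if_neg h]
      refine Finset.sum_nonneg fun I _ => ?_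
      split_ifs
      · exact hpv v
      · exact le_rfl
  have h2 : ∀ I : Fin k → Fin n, (∑ v : Fin n × Bool → Ω, if A I v then ∏ i, p (v i) else 0) ≤
      ρ ^ (n - k) := by
    intro I
    have hcard : n - k ≤ (Finset.univ \ Finset.univ.image I : Finset (Fin n)).card := by
      rw [Finset.card_sdiff_of_subset (Finset.subset_univ _), Finset.card_univ, Fintype.card_fin]
      have : (Finset.univ.image I).card ≤ k := by
        refine Finset.card_image_le.trans ?_
        rw [Finset.card_univ, Fintype.card_fin]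
      omega
    obtain ⟨S, hS, hSc⟩ := Finset.exists_subset_card_eq hcard
    have hIS : ∀ l, I l ∉ S := by
      intro l hl
      have := hS hl
      rw [Finset.mem_sdiff] at this
      exact this.2 (Finset.mem_image_of_mem _ (Finset.mem_univ _))
    set T : Finset (Fin n × Bool) := S.image fun i => (i, true) with hT
    have hTc : T.card = n - k := by
      rw [hT, Finset.card_image_of_injective _ (fun a b h => (Prod.ext_iff.mp h).1), hSc]
    have hTf : ∀ i, (i, false) ∉ T := by
      intro i hi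
      rw [hT, Finset.mem_image] at hi
      obtain ⟨a, _, ha⟩ := hi
      have := (Prod.ext_iff.mp ha).2
      simp at this
    have hTI : ∀ l, (I l, true) ∉ T := by
      intro l hi
      rw [hT, Finset.mem_image] at hi
      obtain ⟨a, ha1, ha⟩ := hi
      have h3 : a = I l := (Prod.ext_iff.mp ha).1
      exact hIS l (h3 ▸ ha1)
    set Q : Fin n × Bool → (Fin n × Bool → Ω) → Ω → Prop := fun x v l' =>
      ∃ c : Fin k → ℝ, ∀ j : Fin m, |D l' j - D (v (x.1, false)) j -
        ∑ l, c l * (D (v (I l, true)) j - D (v (I l, false)) j)| ≤ r with hQ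
    have h4 := prod_bound p hp T Q (by
      intro x _ v v' hvv l' hl'
      obtain ⟨c, hc⟩ := hl'
      refine ⟨c, fun j => ?_⟩
      have h5 := hc j
      rw [hvv _ (hTf x.1)] at h5
      have h6 : (∑ l, c l * (D (v (I l, true)) j - D (v (I l, false)) j)) =
          ∑ l, c l * (D (v' (I l, true)) j - D (v' (I l, false)) j) := by
        refine Finset.sum_congr rfl fun l _ => ?_
        rw [hvv _ (hTI l), hvv _ (hTf (I l))]
      rw [h6] at h5
      exact h5) ρ (by
      intro x _ v
      exact hB (D (v (x.1, false))) (fun l j => D (v (I l, true)) j - D (v (I l, false)) j))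
    rw [hTc] at h4
    refine le_trans (Finset.sum_le_sum fun v _ => ?_) h4
    by_cases hAv : A I v
    · rw [if_pos hAv, if_pos]
      intro x hx
      rw [hT, Finset.mem_image] at hx
      obtain ⟨i, _, rfl⟩ := hx
      exact hAv i
    · rw [if_neg hAv]
      split_ifs
      · exact hpv v
      · exact le_rfl
  refine h1.trans ((Finset.sum_le_sum fun I _ => h2 I).trans (le_of_eq ?_))
  rw [Finset.sum_const, Finset.card_univ, Fintype.card_fun, Fintype.card_fin, Fintype.card_fin,
    nsmul_eq_mul]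
  push_cast
  rfl

end Pool.KSAT
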